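import Pool.Agent.helper62.VD.SpecE2

/-!
# Row `vde:SLP`

Positivity and local finiteness of the Liouville measure.
-/

set_option autoImplicit false

open MeasureTheory Filter Set Topology
open scoped ENNReal ContDiff InnerProductSpace

namespace Pool.Agent.VDE

open VD

noncomputable section

lemma SLP_dir_cont {d : ℕ} (G : V d → V d →L[ℝ] V d) (hc : Continuous (nrm G : P d → ℝ)) (p : P d)
    (hp : nrm G p ≠ 0) : ContinuousAt (dir G) p := by
  have h1 : ContinuousAt (fun q : P d => (nrm G q)⁻¹) p := hc.continuousAt.inv₀ hp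
  exact continuousAt_fst.prodMk (h1.smul continuousAt_snd)

theorem SLP_proof (h1 : SNM_stmt) (h2 : SLF_stmt) : SLP_stmt := by
  intro d G hG
  obtain ⟨hc, -, hs, -, hK⟩ := h1 d G hG
  obtain ⟨hA, -, -⟩ := h2 d G hG
  constructor
  · rintro U hU ⟨p, hpU, hp1⟩
    rw [hA U hU.measurableSet]
    have hopen : IsOpen {q : P d | 0 < nrm G q ∧ nrm G q < 1 ∧ dir G q ∈ U} := by
      rw [isOpen_iff_mem_nhds]
      rintro q ⟨hq0, hq1, hqU⟩
      have e1 : ∀ᶠ y in 𝓝 q, 0 < nrm G y := hc.continuousAt.eventually_const_lt hq0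
      have e2 : ∀ᶠ y in 𝓝 q, nrm G y < 1 := hc.continuousAt.eventually_lt_const hq1
      have e3 : ∀ᶠ y in 𝓝 q, dir G y ∈ U :=
        (SLP_dir_cont G hc q hq0.ne').eventually_mem (hU.mem_nhds hqU)
      filter_upwards [e1, e2, e3] with y a b c
      exact ⟨a, b, c⟩
    have hne : {q : P d | 0 < nrm G q ∧ nrm G q < 1 ∧ dir G q ∈ U}.Nonempty := by
      refine ⟨(p.1, (1 / 2 : ℝ) • p.2), ?_⟩
      have e1 : nrm G ((p.1, (1 / 2 : ℝ) • p.2) : P d) = 1 / 2 := by
        rw [hs p.1 p.2 (1 / 2)]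
        have : nrm G (p.1, p.2) = 1 := hp1
        rw [this, abs_of_pos (by norm_num)]; norm_num
      have e2 : dir G ((p.1, (1 / 2 : ℝ) • p.2) : P d) = p := by
        unfold dir
        rw [e1]
        ext1
        · rfl
        · show (1 / 2 : ℝ)⁻¹ • (1 / 2 : ℝ) • p.2 = p.2
          rw [smul_smul]; norm_num
      refine ⟨?_, ?_, ?_⟩
      · rw [e1]; norm_num
      · rw [e1]; norm_num
      · rw [e2]; exact hpU
    refine lt_of_lt_of_le (hopen.measure_pos volume hne) (measure_mono ?_)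
    rintro q ⟨a, b, c⟩
    exact ⟨a, b.le, c⟩
  · intro L hL
    rw [hA {p : P d | p.1 ∈ L} (measurable_fst hL.measurableSet)]
    refine lt_of_le_of_lt (measure_mono ?_) (hK L hL 1).measure_lt_top
    rintro q ⟨-, b, c⟩
    exact ⟨c, b⟩

end

end Pool.Agent.VDE
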